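import Mathlib

/-! # Cancellation in a product of two reduced words (MP_ed1a61_al, block N) -/

set_option autoImplicit false

namespace SclIrr.N

open FreeGroup

variable {Y : Type}

/-- `R = R' (u_1 … u_k)⁻¹` and `R' u_{k+1} … u_n` is reduced.
Proof: induction on `u`, `R` arbitrary. If `u = x :: u'` and the last letter of `R` is the inverse
of `x`, `R = R₁ ++ [x⁻¹]`, use the induction hypothesis for `R₁` and `u'`; otherwise `k = 0`. -/
theorem cancel (u R : List (Y × Bool)) (hR : IsReduced R) (hu : IsReduced u) :
    ∃ k ≤ u.length, ∃ R' : List (Y × Bool),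
      R = R' ++ invRev (u.take k) ∧ IsReduced (R' ++ u.drop k) := by
  induction u generalizing R with
  | nil =>
    refine ⟨0, le_rfl, R, ?_, ?_⟩
    · simp [invRev]
    · simpa using hR
  | cons p u ih =>
    by_cases h : R.getLast? = some (p.1, !p.2)
    · obtain ⟨R₁, rfl⟩ := List.getLast?_eq_some_iff.1 h
      obtain ⟨k, hk, R', h1, h2⟩ := ih R₁ (List.IsChain.left_of_append hR)
        (List.isChain_cons.1 hu).2
      refine ⟨k + 1, by simpa using hk, R', ?_, ?_⟩
      · rw [List.take_succ_cons]
        have h3 : invRev (p :: u.take k) = invRev (u.take k) ++ [(p.1, !p.2)] := by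
          simp [invRev]
        rw [h3, ← List.append_assoc, ← h1]
      · rwa [List.drop_succ_cons]
    · refine ⟨0, Nat.zero_le _, R, ?_, ?_⟩
      · simp [invRev]
      · rw [List.drop_zero]
        refine List.isChain_append.2 ⟨hR, hu, ?_⟩
        intro x hx y hy h3
        have hy' : p = y := by simpa using hy
        subst hy'
        by_contra h4
        apply h
        have h5 : R.getLast? = some x := hx
        rw [h5]
        congr 1
        refine Prod.ext h3 ?_
        exact Bool.eq_not.2 h4

end SclIrr.N
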