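import Pool.Agent.Lib.MP_ed1a61_al_N.Ch
import Pool.Agent.Lib.MP_ed1a61_al_N.Cancel

/-! # Arcs in the tree of a free group (MP_ed1a61_al, block N) -/

set_option autoImplicit false

namespace SclIrr.N

private theorem Arc_sub {α : Type} {L₁ L₂ : List (α × Bool)} (h : FreeGroup.IsReduced L₂)
    (h' : L₁ <:+: L₂) : FreeGroup.IsReduced L₁ := by
  obtain ⟨s, t, rfl⟩ := h'
  exact List.IsChain.right_of_append (List.IsChain.left_of_append h)

open FreeGroup

variable {G Y : Type} [Group G] [DecidableEq Y] (y : Y → G) (ρ : G → FreeGroup Y)

/-- The reduced words of the points of a reduced arc: first letters are removed, then letters are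
added. From `cancel` for `R = (ρ g).toWord`: `ρ (g * val y (u.take i)) = ρ g * mk (u.take i)`
(`hρ`, `val_eq_lift`), and the words on the right are reduced (they are infixes of reduced words),
so they are the reduced words (`FreeGroup.IsReduced.reduce_eq`, `toWord_mk`). -/
theorem arc (hρ : ∀ (g : G) (v : FreeGroup Y), ρ (g * FreeGroup.lift y v) = ρ g * v) (g : G)
    (u : List (Y × Bool)) (hu : IsReduced u) :
    ∃ k ≤ u.length, ∃ R' : List (Y × Bool),
      (∀ i ≤ k, (ρ (g * val y (u.take i))).toWord = R' ++ invRev ((u.take k).drop i)) ∧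
      (∀ i, k ≤ i → (ρ (g * val y (u.take i))).toWord = R' ++ (u.take i).drop k) := by
  obtain ⟨k, hk, R', hR, hred⟩ := cancel u (ρ g).toWord isReduced_toWord hu
  have hmk : ∀ a : List (Y × Bool), (mk (invRev a) : FreeGroup Y) = (mk a)⁻¹ := by
    intro a; rw [inv_mk]
  have key : ∀ i, ρ (g * val y (u.take i)) = mk (R' ++ invRev (u.take k)) * mk (u.take i) := by
    intro i
    rw [val_eq_lift, hρ, ← hR, mk_toWord]
  refine ⟨k, hk, R', ?_, ?_⟩
  · intro i hi
    have h1 : u.take k = u.take i ++ (u.take k).drop i := by
      conv_lhs => rw [← List.take_append_drop i (u.take k)]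
      rw [List.take_take, min_eq_left hi]
    have h2 : invRev (u.take k) = invRev ((u.take k).drop i) ++ invRev (u.take i) := by
      conv_lhs => rw [h1]
      rw [invRev_append]
    have h3 : ρ (g * val y (u.take i)) = mk (R' ++ invRev ((u.take k).drop i)) := by
      rw [key, h2, ← List.append_assoc, ← mul_mk, hmk (u.take i), mul_assoc, inv_mul_cancel,
        mul_one]
    rw [h3, toWord_mk]
    apply IsReduced.reduce_eq
    refine Arc_sub (isReduced_toWord (x := ρ g)) ?_
    rw [hR, h2, ← List.append_assoc]
    exact (List.prefix_append _ _).isInfix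
  · intro i hi
    have h1 : u.take i = u.take k ++ (u.take i).drop k := by
      conv_lhs => rw [← List.take_append_drop k (u.take i)]
      rw [List.take_take, min_eq_left hi]
    have h3 : ρ (g * val y (u.take i)) = mk (R' ++ (u.take i).drop k) := by
      rw [key]
      conv_lhs => rw [h1]
      rw [← mul_mk, ← mul_mk, ← mul_mk, hmk (u.take k), mul_assoc, inv_mul_cancel_left]
    rw [h3, toWord_mk]
    apply IsReduced.reduce_eq
    refine Arc_sub hred ?_
    refine List.IsPrefix.isInfix ?_
    rw [List.prefix_append_right_inj, List.drop_take]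
    exact List.take_prefix _ _

/-- The step `i` goes away from the base point and the last `κ + 1` letters of its end are the
letters `i - κ, …, i` of `u`. -/
def GoodF (κ : ℕ) (g : G) (u : List (Y × Bool)) (i : ℕ) : Prop :=
  κ ≤ i ∧ i < u.length ∧
    (ρ (g * val y (u.take (i + 1)))).toWord.length = (ρ (g * val y (u.take i))).toWord.length + 1 ∧
    ∃ S, (ρ (g * val y (u.take (i + 1)))).toWord = S ++ (u.drop (i - κ)).take (κ + 1)

/-- The step `i` goes towards the base point and the last `κ + 1` letters of its beginning are the
inverses of the letters `i, …, i + κ` of `u`. -/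
def GoodB (κ : ℕ) (g : G) (u : List (Y × Bool)) (i : ℕ) : Prop :=
  i + κ < u.length ∧
    (ρ (g * val y (u.take i))).toWord.length = (ρ (g * val y (u.take (i + 1)))).toWord.length + 1 ∧
    ∃ S, (ρ (g * val y (u.take i))).toWord = S ++ invRev ((u.drop i).take (κ + 1))

open Classical in
/-- All steps but at most `2κ` are good: with `k` of `arc`, the step `i` is `GoodF` for
`k + κ ≤ i` and `GoodB` for `i + 1 + κ ≤ k`. -/
theorem card_good (hρ : ∀ (g : G) (v : FreeGroup Y), ρ (g * FreeGroup.lift y v) = ρ g * v)
    (κ : ℕ) (g : G) (u : List (Y × Bool)) (hu : IsReduced u) :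
    (u.length : ℝ) - 2 * κ ≤ ((Finset.univ.filter
      (fun i : Fin u.length => GoodF y ρ κ g u i ∨ GoodB y ρ κ g u i)).card : ℝ) := by
  obtain ⟨k, hk, R', hB, hF⟩ := arc y ρ hρ g u hu
  have hinv : ∀ a : List (Y × Bool), (invRev a).length = a.length := fun a => invRev_length
  have good : ∀ i : ℕ, i < u.length → ¬ (GoodF y ρ κ g u i ∨ GoodB y ρ κ g u i) →
      k - κ ≤ i ∧ i < k + κ := by
    intro i hi hbad
    by_contra hcon
    apply hbad
    rcases Nat.lt_or_ge i (k + κ) with h1 | h1
    · right
      have h2 : i + 1 + κ ≤ k := by omega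
      refine ⟨by omega, ?_, ?_⟩
      · rw [hB i (by omega), hB (i + 1) (by omega)]
        simp only [List.length_append, hinv, List.length_drop, List.length_take]
        omega
      · refine ⟨R' ++ invRev (((u.take k).drop i).drop (κ + 1)), ?_⟩
        rw [hB i (by omega), List.append_assoc]
        congr 1
        rw [← invRev_append]
        congr 1
        have h4 : (u.drop i).take (κ + 1) = ((u.take k).drop i).take (κ + 1) := by
          rw [List.drop_take, List.take_take, min_eq_left (by omega)]
        rw [h4, List.take_append_drop]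
    · left
      refine ⟨by omega, hi, ?_, ?_⟩
      · rw [hF i (by omega), hF (i + 1) (by omega)]
        simp only [List.length_append, List.length_drop, List.length_take]
        omega
      · refine ⟨R' ++ ((u.take (i + 1)).drop k).take (i - κ - k), ?_⟩
        rw [hF (i + 1) (by omega), List.append_assoc]
        congr 1
        have h4 : (u.drop (i - κ)).take (κ + 1) =
            ((u.take (i + 1)).drop k).drop (i - κ - k) := by
          rw [List.drop_drop, List.drop_take]
          have e1 : k + (i - κ - k) = i - κ := by omega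
          have e2 : i + 1 - (i - κ) = κ + 1 := by omega
          rw [e1, e2]
        rw [h4, List.take_append_drop]
  have hcard := Finset.card_filter_add_card_filter_not (s := (Finset.univ : Finset (Fin u.length)))
    (fun i : Fin u.length => GoodF y ρ κ g u i ∨ GoodB y ρ κ g u i)
  rw [Finset.card_univ, Fintype.card_fin] at hcard
  have hle : (Finset.univ.filter
      (fun i : Fin u.length => ¬ (GoodF y ρ κ g u i ∨ GoodB y ρ κ g u i))).card ≤ 2 * κ := by
    have h1 : (Finset.univ.filter
        (fun i : Fin u.length => ¬ (GoodF y ρ κ g u i ∨ GoodB y ρ κ g u i))).card ≤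
        (Finset.Ico (k - κ) (k + κ)).card := by
      refine Finset.card_le_card_of_injOn (fun i => (i : ℕ)) ?_ ?_
      · intro i hi
        have h2 := good i i.2 (by simpa using hi)
        simp only [Finset.coe_Ico, Set.mem_Ico]
        exact h2
      · intro a _ b _ hab
        exact Fin.ext hab
    rw [Nat.card_Ico] at h1
    omega
  have hR : (u.length : ℝ) ≤ ((Finset.univ.filter
      (fun i : Fin u.length => GoodF y ρ κ g u i ∨ GoodB y ρ κ g u i)).card : ℝ) + 2 * κ := by
    have : u.length ≤ (Finset.univ.filter
      (fun i : Fin u.length => GoodF y ρ κ g u i ∨ GoodB y ρ κ g u i)).card + 2 * κ := by omega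
    exact_mod_cast this
  linarith

end SclIrr.N
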