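import Pool.Agent.Lib.MP_ed1a61_al_N.Good
import Pool.Agent.Lib.MP_ed1a61_al_G.Defs

/-! # Finite facts about the words (MP_ed1a61_al, block N) -/

set_option autoImplicit false

namespace SclIrr.N

open FreeGroup SclIrr

theorem red_phL (y : Fin 2) : IsReduced (W.pos (W.phL y)) := by
  fin_cases y <;> simp [W.pos, W.phL, FreeGroup.IsReduced]

theorem length_phL (y : Fin 2) : 22 ≤ (W.pos (W.phL y)).length := by
  rw [W.pos_length]
  exact W.le_length_phL y

private theorem phL_win : ∀ l l' : Fin 2, ∀ i i' : Fin 22, i.1 + 5 < (W.phL l).length →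
    i'.1 + 5 < (W.phL l').length → ((W.phL l).drop i.1).take 6 = ((W.phL l').drop i'.1).take 6 →
    l = l' ∧ i = i' := by
  decide +kernel

private theorem xW_win : ∀ i i' : Fin 7, (xW.drop i.1).take 2 = (xW.drop i'.1).take 2 →
    i = i' := by
  decide +kernel

private theorem xW_win' : ∀ i i' : Fin 7, (xW.drop i.1).take 2 ≠
    FreeGroup.invRev ((xW.drop i'.1).take 2) := by
  decide +kernel

/-- (W1) of the text: the 39 windows of length 6 of `φ(a)`, `φ(b)` are pairwise different (a window
of an inverse has negative letters) -/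
theorem win_phL : Win 5 (fun y : Fin 2 => W.pos (W.phL y)) := by
  have hsub : ∀ (l : Fin 2) (i : ℕ), ((W.pos (W.phL l)).drop i).take (5 + 1) =
      W.pos (((W.phL l).drop i).take 6) := by
    intro l i
    simp only [W.pos, List.map_drop, List.map_take]
  constructor
  · intro l l' i i' hi hi' he
    rw [hsub, hsub] at he
    have he1 := W.pos_injective he
    rw [W.pos_length] at hi hi'
    have hl := W.length_phL_le l
    have hl' := W.length_phL_le l'
    obtain ⟨h1, h2⟩ := phL_win l l' ⟨i, by omega⟩ ⟨i', by omega⟩ hi hi' he1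
    exact ⟨h1, by simpa using h2⟩
  · intro l l' i i' hi hi' he
    have hne : ((W.pos (W.phL l)).drop i).take (5 + 1) ≠ [] := by
      intro h0
      have h1 := congrArg List.length h0
      simp only [List.length_take, List.length_drop, List.length_nil] at h1
      beta_reduce at hi
      omega
    obtain ⟨q, hq⟩ := List.exists_mem_of_ne_nil _ hne
    have hq1 : q.2 = true := by
      rw [hsub] at hq
      exact W.mem_pos hq
    have hq2 : q.2 = false := by
      rw [he, hsub] at hq
      exact W.invRev_pos_neg hq
    rw [hq1] at hq2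
    exact absurd hq2 (by decide)

theorem red_xW : IsReduced xW := by
  simp [xW, FreeGroup.IsReduced]

theorem win_xW : Win 1 (fun _ : Unit => xW) := by
  have e1 : xW.length = 8 := rfl
  constructor
  · intro l l' i i' hi hi' he
    simp only [e1] at hi hi'
    have := xW_win ⟨i, by omega⟩ ⟨i', by omega⟩ he
    exact ⟨rfl, by simpa using this⟩
  · intro l l' i i' hi hi'
    simp only [e1] at hi hi'
    exact xW_win' ⟨i, by omega⟩ ⟨i', by omega⟩

end SclIrr.N
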