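import Mathlib

/-! # Coordinates in the cosets of a free subgroup (MP_ed1a61_al, block N) -/

set_option autoImplicit false

namespace SclIrr.N

/-- Coordinates `ρ : G → F(Y)` in the left cosets of a free subgroup: choose a base point in every
left coset of the range of `FreeGroup.lift y`; `g = base * lift y (ρ g)`. -/
theorem exists_rho {G Y : Type} [Group G] (y : Y → G)
    (hy : Function.Injective (FreeGroup.lift y)) :
    ∃ ρ : G → FreeGroup Y, ∀ (g : G) (v : FreeGroup Y), ρ (g * FreeGroup.lift y v) = ρ g * v := by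
  have h1 : ∀ g : G, ∃ w : FreeGroup Y, FreeGroup.lift y w =
      (QuotientGroup.mk g : G ⧸ (FreeGroup.lift y).range).out⁻¹ * g := by
    intro g
    have h2 : (QuotientGroup.mk (QuotientGroup.mk g : G ⧸ (FreeGroup.lift y).range).out :
        G ⧸ (FreeGroup.lift y).range) = QuotientGroup.mk g := Quotient.out_eq' _
    exact QuotientGroup.eq.1 h2
  choose ρ hρ using h1
  refine ⟨ρ, fun g v => hy ?_⟩
  have h2 : (QuotientGroup.mk (g * FreeGroup.lift y v) : G ⧸ (FreeGroup.lift y).range) =
      QuotientGroup.mk g := by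
    rw [eq_comm, QuotientGroup.eq, inv_mul_cancel_left]
    exact ⟨v, rfl⟩
  rw [map_mul, hρ, hρ, h2, mul_assoc]

end SclIrr.N
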