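import Pool.Agent.Lib.MP_ed1a61_al_N.Good
import Pool.Agent.Lib.MP_ed1a61_al_N.Rho

/-! # The norm inequality for arcs in a tree (MP_ed1a61_al, block N) -/

set_option autoImplicit false

namespace SclIrr.N

open FreeGroup

open Classical in
/-- NORM INEQUALITY (section 3.2 of the text). -/
theorem normIneq {G Y ι : Type} [Group G] [Fintype ι] (y : Y → G)
    (hy : Function.Injective (FreeGroup.lift y)) (u : ι → List (Y × Bool))
    (hu : ∀ l, IsReduced (u l)) (κ : ℕ) (hW : Win κ u) (c : ι → (G →₀ ℝ)) :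
    ∑ l, (((u l).length : ℝ) - 4 * κ) * nm (c l) ≤
      nm (∑ l, (c l).sum fun g a => a • ch y g (u l)) := by
  obtain ⟨ρ, hρ⟩ := exists_rho y hy
  -- the index set
  let T : Finset (Σ l : ι, G × Fin (u l).length) :=
    Finset.univ.sigma fun l => (c l).support ×ˢ Finset.univ
  let e : (Σ l : ι, G × Fin (u l).length) → G × Y := fun t =>
    (bpt y (t.2.1 * val y ((u t.1).take t.2.2)) ((u t.1).get t.2.2), ((u t.1).get t.2.2).1)
  let a : (Σ l : ι, G × Fin (u l).length) → ℝ := fun t => c t.1 t.2.1 * sgn ((u t.1).get t.2.2)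
  let P : (Σ l : ι, G × Fin (u l).length) → Prop := fun t =>
    GoodF y ρ κ t.2.1 (u t.1) t.2.2 ∨ GoodB y ρ κ t.2.1 (u t.1) t.2.2
  have habs : ∀ t, |a t| = |c t.1 t.2.1| := by
    intro t
    show |c t.1 t.2.1 * sgn ((u t.1).get t.2.2)| = _
    rw [abs_mul]
    have : |sgn ((u t.1).get t.2.2)| = 1 := by
      unfold sgn
      split_ifs <;> simp
    rw [this, mul_one]
  have hsum : (∑ l, (c l).sum fun g a => a • ch y g (u l)) =
      ∑ t ∈ T, Finsupp.single (e t) (a t) := by
    rw [Finset.sum_sigma]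
    refine Finset.sum_congr rfl fun l _ => ?_
    rw [Finset.sum_product, Finsupp.sum]
    refine Finset.sum_congr rfl fun g _ => ?_
    rw [ch_eq_sum, Finset.smul_sum]
    refine Finset.sum_congr rfl fun i _ => ?_
    rw [Finsupp.smul_single, smul_eq_mul]
  have hinj : Set.InjOn e ((T.filter P : Finset _) : Set _) := by
    rintro ⟨l, g, i⟩ h ⟨l', g', i'⟩ h' heq
    have h1 := (Finset.mem_filter.1 (Finset.mem_coe.1 h)).2
    have h2 := (Finset.mem_filter.1 (Finset.mem_coe.1 h')).2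
    obtain ⟨e1, e2⟩ := Prod.mk.inj heq
    obtain ⟨r1, r2, r3⟩ := good_inj y ρ κ u hW g g' l l' i i' h1 h2 e1 e2
    subst r1
    subst r2
    have : i = i' := Fin.ext r3
    rw [this]
  have hT : ∑ t ∈ T, |a t| = ∑ l, ((u l).length : ℝ) * nm (c l) := by
    rw [Finset.sum_sigma]
    refine Finset.sum_congr rfl fun l _ => ?_
    rw [Finset.sum_product]
    unfold nm
    rw [Finsupp.sum, Finset.mul_sum]
    refine Finset.sum_congr rfl fun g _ => ?_
    have : ∀ i : Fin (u l).length, |a ⟨l, (g, i)⟩| = |c l g| := fun i => habs ⟨l, (g, i)⟩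
    rw [Finset.sum_congr rfl fun i _ => this i, Finset.sum_const, Finset.card_univ,
      Fintype.card_fin, nsmul_eq_mul]
  have hG : ∑ l, (((u l).length : ℝ) - 2 * κ) * nm (c l) ≤ ∑ t ∈ T.filter P, |a t| := by
    rw [Finset.sum_filter, Finset.sum_sigma]
    refine Finset.sum_le_sum fun l _ => ?_
    rw [Finset.sum_product]
    unfold nm
    rw [Finsupp.sum, Finset.mul_sum]
    refine Finset.sum_le_sum fun g _ => ?_
    have h1 : ∑ i : Fin (u l).length, (if P ⟨l, (g, i)⟩ then |a ⟨l, (g, i)⟩| else 0) =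
        ((Finset.univ.filter (fun i : Fin (u l).length =>
          GoodF y ρ κ g (u l) i ∨ GoodB y ρ κ g (u l) i)).card : ℝ) * |c l g| := by
      rw [← Finset.sum_filter]
      have h0 : ∀ i : Fin (u l).length, |a ⟨l, (g, i)⟩| = |c l g| := fun i => habs ⟨l, (g, i)⟩
      rw [Finset.sum_congr rfl fun i _ => h0 i, Finset.sum_const, nsmul_eq_mul]
    rw [h1]
    exact mul_le_mul_of_nonneg_right (card_good y ρ hρ κ g (u l) (hu l)) (abs_nonneg _)
  have hmain := nm_good_bad T (T.filter P) (Finset.filter_subset _ _) e a hinj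
  rw [hsum]
  refine le_trans ?_ hmain
  rw [hT]
  have h2 : ∑ l, (((u l).length : ℝ) - 4 * κ) * nm (c l) =
      2 * (∑ l, (((u l).length : ℝ) - 2 * κ) * nm (c l)) -
        ∑ l, ((u l).length : ℝ) * nm (c l) := by
    rw [Finset.mul_sum, ← Finset.sum_sub_distrib]
    refine Finset.sum_congr rfl fun l _ => ?_
    ring
  rw [h2]
  linarith

end SclIrr.N
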