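import Pool.Agent.Lib.MP_ed1a61_al_N.RelR
import Pool.Agent.Lib.MP_ed1a61_al_N.Facts
import Pool.Agent.Lib.MP_ed1a61_al_N.NormIneq

/-! # Linear bounds for the parts of a filling (MP_ed1a61_al, block N) -/

set_option autoImplicit false

namespace SclIrr.N

open FreeGroup SclIrr

private theorem sum_R {M : Type} [AddCommMonoid M] (F : R → M) :
    ∑ j : R, F j = ∑ y : Fin 2, F (R.tab y) + (F R.ss + F R.bx) := by
  have h : (Finset.univ : Finset R) = {R.tab 0, R.tab 1, R.ss, R.bx} := by decide
  rw [h, Finset.sum_insert (by decide), Finset.sum_insert (by decide),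
    Finset.sum_insert (by decide), Finset.sum_singleton, Fin.sum_univ_two, add_assoc]

private theorem sum_add' {A M : Type} [AddCommGroup M] [Module ℝ M] (c : A →₀ ℝ) (f g : A → M) :
    (c.sum fun h a => a • (f h - g h)) = (c.sum fun h a => a • f h) - c.sum fun h a => a • g h := by
  simp only [Finsupp.sum, smul_sub, Finset.sum_sub_distrib]

private theorem sum_neg' {A M : Type} [AddCommGroup M] [Module ℝ M] (c : A →₀ ℝ) (f : A → M) :
    (c.sum fun h a => a • (-f h)) = - c.sum fun h a => a • f h := by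
  simp only [Finsupp.sum, smul_neg, Finset.sum_neg_distrib]

private theorem sum_zero' {A M : Type} [AddCommGroup M] [Module ℝ M] (c : A →₀ ℝ) :
    (c.sum fun (_ : A) a => a • (0 : M)) = 0 := by
  simp only [Finsupp.sum, smul_zero, Finset.sum_const_zero]

private theorem map_sum' {A M M' : Type} [AddCommGroup M] [Module ℝ M] [AddCommGroup M']
    [Module ℝ M'] (L : M →ₗ[ℝ] M') (c : A →₀ ℝ) (f : A → M) :
    L (c.sum fun h a => a • f h) = c.sum fun h a => a • L (f h) := by
  simp only [Finsupp.sum, map_sum, map_smul]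

variable (c : (G × R) →₀ ℝ) (w : List (X × Bool))
  (hc : ch gam 1 w = c.sum fun x a => a • ch gam x.1 (rel x.2))

include hc

/-- a linear map applied to the filling -/
private theorem split {M : Type} [AddCommGroup M] [Module ℝ M]
    (L : ((G × X) →₀ ℝ) →ₗ[ℝ] M) :
    L (ch gam 1 w) =
      ∑ y : Fin 2, ((slice (R.tab y) c).sum fun h a => a • L (ch gam h (rel (R.tab y)))) +
      (((slice R.ss c).sum fun h a => a • L (ch gam h (rel R.ss))) +
        (slice R.bx c).sum fun h a => a • L (ch gam h (rel R.bx))) := by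
  rw [hc, map_sum', sum_eq_sum_slice c (fun x : G × R => L (ch gam x.1 (rel x.2))), sum_R]

/-- Section 3.3, edges `c, d, e, f`: apply `restr cf` to `hc` (`sum_eq_sum_slice`, `restr_comb`,
`restr_cf_tab`, `restr_cf_ss`, `restr_cf_bx`) and use `normIneq` for the words `xW`
(`ι = Unit`, `κ = 1`, `n = 8`), `nm_restr_le`, `nm_ch_le`. -/
theorem bd_bx (h4 : Function.Injective (FreeGroup.lift (gam ∘ cf))) :
    4 * nm (slice R.bx c) ≤ w.length := by
  have h1 := split c w hc (restr cf cf_inj)
  simp only [restr_cf_tab, restr_cf_ss, restr_cf_bx, sum_zero', sum_neg', Finset.sum_const_zero,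
    zero_add] at h1
  have h2 := normIneq (gam ∘ cf) h4 (fun _ : Unit => xW) (fun _ => red_xW) 1 win_xW
    (fun _ => slice R.bx c)
  simp only [Finset.univ_unique, Finset.sum_singleton] at h2
  have h3 : nm (restr cf cf_inj (ch gam 1 w)) ≤ w.length :=
    (nm_restr_le cf cf_inj _).trans (nm_ch_le gam 1 w)
  rw [h1, nm_neg] at h3
  have h5 : (xW.length : ℝ) = 8 := by norm_num [xW]
  rw [h5] at h2
  push_cast at h2
  linarith

/-- Section 3.3, edges `a, b`: `∑_y ∑_h c_y(h) ch h φ(y) = ∑_y ∑_h c_y(h) (h t, y)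
+ ∑_h c_bx(h) ch h b^m - (ch 1 w)|ab`; the left side has norm at least `∑_y (n_y - 20) nm c_y
≥ 2 ∑_y nm c_y` (`normIneq`, `κ = 5`), the right side at most
`∑_y nm c_y + m nm c_bx + length w`. -/
theorem bd_tab (h2 : Function.Injective (FreeGroup.lift (gam ∘ ab))) :
    ∑ y : Fin 2, nm (slice (R.tab y) c) ≤ mexp * nm (slice R.bx c) + w.length := by
  have h1 := split c w hc (restr ab ab_inj)
  simp only [restr_ab_tab, restr_ab_ss, restr_ab_bx, sum_zero', sum_add', zero_add,
    Finset.sum_sub_distrib] at h1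
  have h3 := normIneq (gam ∘ ab) h2 (fun y : Fin 2 => W.pos (W.phL y)) red_phL 5 win_phL
    (fun y => slice (R.tab y) c)
  have h4 : nm (restr ab ab_inj (ch gam 1 w)) ≤ w.length :=
    (nm_restr_le ab ab_inj _).trans (nm_ch_le gam 1 w)
  have h5 : (∑ y : Fin 2, (slice (R.tab y) c).sum fun g a =>
        a • ch (gam ∘ ab) g (W.pos (W.phL y))) =
      ((∑ y : Fin 2, (slice (R.tab y) c).sum fun g a =>
        a • (Finsupp.single (g * gam X.t, y) (1 : ℝ) : (G × Fin 2) →₀ ℝ)) +
      ((slice R.bx c).sum fun g a =>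
        a • ch (gam ∘ ab) g (List.replicate mexp ((1 : Fin 2), true)))) -
      restr ab ab_inj (ch gam 1 w) := by
    rw [h1]; abel
  rw [h5] at h3
  have h6 := nm_sub_le ((∑ y : Fin 2, (slice (R.tab y) c).sum fun g a =>
        a • (Finsupp.single (g * gam X.t, y) (1 : ℝ) : (G × Fin 2) →₀ ℝ)) +
      ((slice R.bx c).sum fun g a =>
        a • ch (gam ∘ ab) g (List.replicate mexp ((1 : Fin 2), true))))
      (restr ab ab_inj (ch gam 1 w))
  have h7 := nm_add_le (∑ y : Fin 2, (slice (R.tab y) c).sum fun g a =>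
        a • (Finsupp.single (g * gam X.t, y) (1 : ℝ) : (G × Fin 2) →₀ ℝ))
      ((slice R.bx c).sum fun g a =>
        a • ch (gam ∘ ab) g (List.replicate mexp ((1 : Fin 2), true)))
  have h8 : nm (∑ y : Fin 2, (slice (R.tab y) c).sum fun g a =>
        a • (Finsupp.single (g * gam X.t, y) (1 : ℝ) : (G × Fin 2) →₀ ℝ)) ≤
      ∑ y : Fin 2, nm (slice (R.tab y) c) := by
    refine (nm_sum_le _ _).trans (Finset.sum_le_sum fun y _ => ?_)
    have := nm_comb_le (slice (R.tab y) c)
      (fun g => (Finsupp.single (g * gam X.t, y) (1 : ℝ) : (G × Fin 2) →₀ ℝ)) 1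
      (fun g => by rw [nm_single, abs_one])
    simpa using this
  have h9 : nm ((slice R.bx c).sum fun g a =>
        a • ch (gam ∘ ab) g (List.replicate mexp ((1 : Fin 2), true))) ≤
      mexp * nm (slice R.bx c) := by
    refine nm_comb_le (slice R.bx c) _ mexp fun g => (nm_ch_le _ _ _).trans ?_
    rw [List.length_replicate]
  have h10 : 2 * ∑ y : Fin 2, nm (slice (R.tab y) c) ≤
      ∑ l : Fin 2, (((W.pos (W.phL l)).length : ℝ) - 4 * (5 : ℕ)) * nm (slice (R.tab l) c) := by
    rw [Finset.mul_sum]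
    refine Finset.sum_le_sum fun y _ => mul_le_mul_of_nonneg_right ?_ (nm_nonneg _)
    have : (22 : ℝ) ≤ ((W.pos (W.phL y)).length : ℝ) := by exact_mod_cast length_phL y
    push_cast
    linarith
  linarith

/-- Section 3.3, edges `s`: there is a chain `d : G →₀ ℝ` for the relator `s²` with the same
boundary as `slice R.ss c` and norm at most `length w / 2`: with `cs = slice R.ss c` and `cs'` its
translate by `s` on the right (`Finsupp.mapDomain (· * gam X.s)`), `slice X.s` of `hc` gives
`slice X.s (ch gam 1 w) = cs + cs'`; put `d = (1/2) (cs + cs')`. -/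
theorem bd_ss : ∃ d : G →₀ ℝ, 2 * nm d ≤ w.length ∧
    (d.sum fun h a => a • ch gam h (rel R.ss)) =
      (slice R.ss c).sum fun h a => a • ch gam h (rel R.ss) := by
  have h1 := split c w hc (slice X.s)
  simp only [slice_s_tab, slice_s_ss, slice_s_bx, sum_zero', Finset.sum_const_zero,
    zero_add, add_zero] at h1
  refine ⟨(1 / 2 : ℝ) • slice X.s (ch gam 1 w), ?_, ?_⟩
  · rw [nm_smul, abs_of_nonneg (by norm_num : (0 : ℝ) ≤ 1 / 2)]
    have := (nm_slice_le X.s (ch gam 1 w)).trans (nm_ch_le gam 1 w)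
    linarith
  · have h2 : ∀ h : G, ch gam (h * gam X.s) (rel R.ss) = ch gam h (rel R.ss) := by
      intro h
      rw [ch_rel_ss, ch_rel_ss, mul_assoc, rel_s, mul_one, add_comm]
    have h3 : ∀ v : G →₀ ℝ, (v.sum fun h a => a • ch gam h (rel R.ss)) =
        Finsupp.linearCombination ℝ (fun h : G => ch gam h (rel R.ss)) v :=
      fun v => (Finsupp.linearCombination_apply ℝ v).symm
    rw [h3, h3, map_smul, h1, map_sum']
    simp only [map_add, Finsupp.linearCombination_single, one_smul, h2]
    rw [Finsupp.linearCombination_apply]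
    simp only [Finsupp.sum]
    rw [Finset.smul_sum]
    refine Finset.sum_congr rfl fun h _ => ?_
    module

end SclIrr.N
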