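import Mathlib

/-! # The `ℓ¹` norm of finitely supported functions (MP_ed1a61_al, block N) -/

set_option autoImplicit false

namespace SclIrr.N

variable {E τ : Type}

/-- the `ℓ¹` norm -/
noncomputable def nm (z : E →₀ ℝ) : ℝ := z.sum fun _ a => |a|

theorem nm_nonneg (z : E →₀ ℝ) : 0 ≤ nm z := by
  unfold nm Finsupp.sum
  exact Finset.sum_nonneg fun _ _ => abs_nonneg _

theorem nm_zero : nm (0 : E →₀ ℝ) = 0 := by
  unfold nm
  exact Finsupp.sum_zero_index

theorem nm_single (e : E) (a : ℝ) : nm (Finsupp.single e a) = |a| := by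
  unfold nm
  exact Finsupp.sum_single_index abs_zero

theorem nm_neg (z : E →₀ ℝ) : nm (-z) = nm z := by
  unfold nm
  rw [Finsupp.sum_neg_index fun _ => abs_zero]
  simp only [abs_neg]

theorem nm_smul (r : ℝ) (z : E →₀ ℝ) : nm (r • z) = |r| * nm z := by
  unfold nm
  rw [Finsupp.sum_smul_index fun _ => abs_zero, Finsupp.mul_sum]
  simp only [abs_mul]

private theorem nm_eq_sum (z : E →₀ ℝ) (s : Finset E) (h : z.support ⊆ s) :
    nm z = ∑ x ∈ s, |z x| := by
  unfold nm
  exact Finsupp.sum_of_support_subset z h _ fun _ _ => abs_zero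

theorem nm_add_le (z z' : E →₀ ℝ) : nm (z + z') ≤ nm z + nm z' := by
  classical
  rw [nm_eq_sum (z + z') (z.support ∪ z'.support) Finsupp.support_add,
    nm_eq_sum z (z.support ∪ z'.support) Finset.subset_union_left,
    nm_eq_sum z' (z.support ∪ z'.support) Finset.subset_union_right, ← Finset.sum_add_distrib]
  exact Finset.sum_le_sum fun x _ => by
    rw [Finsupp.add_apply]
    exact abs_add_le _ _

theorem nm_sub_le (z z' : E →₀ ℝ) : nm (z - z') ≤ nm z + nm z' := by
  rw [sub_eq_add_neg]
  refine (nm_add_le _ _).trans ?_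
  rw [nm_neg]

theorem nm_sum_le (T : Finset τ) (f : τ → E →₀ ℝ) : nm (∑ t ∈ T, f t) ≤ ∑ t ∈ T, nm (f t) := by
  classical
  induction T using Finset.induction_on with
  | empty => simp [nm_zero]
  | insert t T ht ih =>
    rw [Finset.sum_insert ht, Finset.sum_insert ht]
    exact (nm_add_le _ _).trans (by linarith)

/-- the norm of a combination of chains -/
theorem nm_comb_le {B : Type} (c : B →₀ ℝ) (f : B → E →₀ ℝ) (L : ℝ) (hL : ∀ x, nm (f x) ≤ L) :
    nm (c.sum fun x a => a • f x) ≤ L * nm c := by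
  have h1 : L * nm c = ∑ x ∈ c.support, |c x| * L := by
    unfold nm Finsupp.sum
    rw [Finset.mul_sum]
    exact Finset.sum_congr rfl fun x _ => mul_comm _ _
  rw [h1]
  refine (nm_sum_le c.support fun x => c x • f x).trans (Finset.sum_le_sum fun x _ => ?_)
  rw [nm_smul]
  exact mul_le_mul_of_nonneg_left (hL x) (abs_nonneg _)

theorem nm_of_injOn (T : Finset τ) (e : τ → E) (a : τ → ℝ) (h : Set.InjOn e (T : Set τ)) :
    nm (∑ t ∈ T, Finsupp.single (e t) (a t)) = ∑ t ∈ T, |a t| := by
  classical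
  have h1 : (∑ t ∈ T, Finsupp.single (e t) (a t)).support ⊆ T.image e := by
    refine Finsupp.support_finsetSum.trans ?_
    refine Finset.biUnion_subset.2 fun t ht => ?_
    refine Finsupp.support_single_subset.trans ?_
    rw [Finset.singleton_subset_iff]
    exact Finset.mem_image_of_mem e ht
  rw [nm_eq_sum _ _ h1, Finset.sum_image h]
  refine Finset.sum_congr rfl fun t ht => ?_
  rw [Finsupp.finsetSum_apply, Finset.sum_eq_single t]
  · rw [Finsupp.single_eq_same]
  · intro t' ht' hne
    rw [Finsupp.single_apply, if_neg]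
    exact fun h2 => hne (h ht' ht h2)
  · exact fun h2 => absurd ht h2

/-- if `e` is injective on the good indices then the norm is at least (good part) minus
(bad part) -/
theorem nm_good_bad (T Gd : Finset τ) (hG : Gd ⊆ T) (e : τ → E) (a : τ → ℝ)
    (h : Set.InjOn e (Gd : Set τ)) :
    2 * (∑ t ∈ Gd, |a t|) - ∑ t ∈ T, |a t| ≤ nm (∑ t ∈ T, Finsupp.single (e t) (a t)) := by
  classical
  have h1 := Finset.sum_sdiff (f := fun t => Finsupp.single (e t) (a t)) hG
  have h2 := Finset.sum_sdiff (f := fun t => |a t|) hG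
  have h3 := nm_of_injOn Gd e a h
  have h4 : ∑ t ∈ Gd, Finsupp.single (e t) (a t) = (∑ t ∈ T, Finsupp.single (e t) (a t)) -
      ∑ t ∈ T \ Gd, Finsupp.single (e t) (a t) := by
    rw [← h1]
    abel
  have h5 := nm_sub_le (∑ t ∈ T, Finsupp.single (e t) (a t))
    (∑ t ∈ T \ Gd, Finsupp.single (e t) (a t))
  rw [← h4, h3] at h5
  have h6 := nm_sum_le (T \ Gd) fun t => Finsupp.single (e t) (a t)
  simp only [nm_single] at h6
  linarith

end SclIrr.N
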