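import Mathlib
import Pool.Agent.Lib.MP_ed1a61_al_N.Nm

/-! # Chains of paths (MP_ed1a61_al, block N) -/

set_option autoImplicit false

namespace SclIrr.N

open FreeGroup

variable {G X : Type} [Group G] (gam : X → G)

/-- value of a letter -/
def lv (x : X × Bool) : G := if x.2 then gam x.1 else (gam x.1)⁻¹

/-- value of a word -/
def val (w : List (X × Bool)) : G := (w.map (lv gam)).prod

/-- first point of the edge which a letter at `g` runs through: `(x, true)` at `g` is the edge from
`g` to `g x`, `(x, false)` at `g` is the inverse of the edge from `g x⁻¹` to `g` -/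
def bpt (g : G) (x : X × Bool) : G := if x.2 then g else g * (gam x.1)⁻¹

/-- orientation -/
def sgn (x : X × Bool) : ℝ := if x.2 then 1 else -1

/-- the chain of the path from `g` with label `w` -/
noncomputable def ch : G → List (X × Bool) → (G × X) →₀ ℝ
  | _, [] => 0
  | g, x :: w => Finsupp.single (bpt gam g x, x.1) (sgn x) + ch (g * lv gam x) w

theorem val_nil : val gam [] = 1 := rfl

theorem val_cons (x : X × Bool) (w : List (X × Bool)) :
    val gam (x :: w) = lv gam x * val gam w := by
  rw [val, val, List.map_cons, List.prod_cons]

theorem val_append (u v : List (X × Bool)) : val gam (u ++ v) = val gam u * val gam v := by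
  rw [val, val, val, List.map_append, List.prod_append]

private theorem ch_lv_not (x : X) (b : Bool) : lv gam (x, b) * lv gam (x, !b) = 1 := by
  cases b <;> simp [lv]

private theorem ch_val_one (x : X × Bool) : val gam [x] = lv gam x := by
  rw [val_cons, val_nil, mul_one]

theorem val_invRev (w : List (X × Bool)) : val gam (invRev w) = (val gam w)⁻¹ := by
  induction w with
  | nil => rw [invRev_empty, val_nil, inv_one]
  | cons x w ih =>
    have h1 : val gam (invRev [x]) = (lv gam x)⁻¹ := by
      have h2 : invRev [x] = [(x.1, !x.2)] := rfl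
      rw [h2, ch_val_one]
      exact (inv_eq_of_mul_eq_one_right (ch_lv_not gam x.1 x.2)).symm
    rw [invRev_cons, val_append, ih, h1, val_cons, mul_inv_rev]

theorem val_eq_lift (w : List (X × Bool)) : val gam w = FreeGroup.lift gam (FreeGroup.mk w) := by
  rw [FreeGroup.lift_mk, val]
  congr 1
  refine List.map_congr_left fun x _ => ?_
  rcases x with ⟨x, b⟩
  cases b <;> rfl

theorem val_map {Y : Type} (em : Y → X) (w : List (Y × Bool)) :
    val gam (w.map (Prod.map em id)) = val (gam ∘ em) w := by
  rw [val, val, List.map_map]
  rfl

theorem ch_append (g : G) (u v : List (X × Bool)) :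
    ch gam g (u ++ v) = ch gam g u + ch gam (g * val gam u) v := by
  induction u generalizing g with
  | nil => rw [List.nil_append, val_nil, mul_one, ch, zero_add]
  | cons x u ih =>
    rw [List.cons_append, ch, ch, ih, val_cons, add_assoc, mul_assoc]

private theorem ch_one (g : G) (x : X × Bool) :
    ch gam g [x] = Finsupp.single (bpt gam g x, x.1) (sgn x) := by
  rw [ch, ch, add_zero]

private theorem ch_not (g : G) (x : X) (b : Bool) :
    Finsupp.single (bpt gam g (x, b), x) (sgn (x, b)) +
      Finsupp.single (bpt gam (g * lv gam (x, b)) (x, !b), x) (sgn (x, !b)) = 0 := by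
  cases b
  · have h1 : bpt gam g (x, false) = g * (gam x)⁻¹ := rfl
    have h2 : bpt gam (g * lv gam (x, false)) (x, !false) = g * (gam x)⁻¹ := rfl
    have h3 : sgn (x, false) = -1 := rfl
    have h4 : sgn (x, !false) = 1 := rfl
    rw [h1, h2, h3, h4, ← Finsupp.single_add]
    simp
  · have h1 : bpt gam g (x, true) = g := rfl
    have h2 : bpt gam (g * lv gam (x, true)) (x, !true) = g * gam x * (gam x)⁻¹ := rfl
    have h3 : sgn (x, true) = 1 := rfl
    have h4 : sgn (x, !true) = -1 := rfl
    rw [h1, h2, h3, h4, mul_inv_cancel_right, ← Finsupp.single_add]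
    simp

/-- the inverse path. Induction on `w` (`invRev (x :: w) = invRev w ++ [x⁻¹]`, `ch_append`). -/
theorem ch_invRev (g : G) (w : List (X × Bool)) :
    ch gam (g * val gam w) (invRev w) = -ch gam g w := by
  induction w generalizing g with
  | nil => rw [invRev_empty, ch, ch, neg_zero]
  | cons x w ih =>
    have h1 := ih (g * lv gam x)
    have h2 : invRev [x] = [(x.1, !x.2)] := rfl
    have h3 := ch_not gam g x.1 x.2
    rw [invRev_cons, ch_append, val_cons, ← mul_assoc, h1, val_invRev, mul_inv_cancel_right,
      h2, ch_one, ch, neg_add, add_comm]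
    congr 1
    exact (neg_eq_of_add_eq_zero_right h3).symm

theorem nm_ch_le (g : G) (w : List (X × Bool)) : nm (ch gam g w) ≤ w.length := by
  induction w generalizing g with
  | nil => rw [ch, nm_zero, List.length_nil, Nat.cast_zero]
  | cons x w ih =>
    have h1 : |sgn x| = 1 := by
      rw [sgn]
      split_ifs <;> simp
    rw [ch, List.length_cons, Nat.cast_add, Nat.cast_one]
    refine (nm_add_le _ _).trans ?_
    rw [nm_single, h1]
    linarith [ih (g * lv gam x)]

/-- The chain only depends on the element of the free group: a reduction step removes two letters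
whose contributions cancel (`FreeGroup.Red.Step`, `FreeGroup.red.exact`). -/
theorem ch_congr (g : G) {u v : List (X × Bool)} (h : FreeGroup.mk u = FreeGroup.mk v) :
    ch gam g u = ch gam g v := by
  have H : ∀ a b : List (X × Bool), FreeGroup.Red.Step a b → ch gam g a = ch gam g b := by
    intro a b hab
    cases hab with
    | @not L₁ L₂ x c =>
      rw [ch_append, ch_append, ch, ch, mul_assoc (g * val gam L₁), ch_lv_not, mul_one, ← add_assoc
        (Finsupp.single _ _), ch_not, zero_add]
  exact congrArg (Quot.lift (ch gam g) H) h

theorem ch_eq_sum (g : G) (w : List (X × Bool)) :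
    ch gam g w = ∑ i : Fin w.length, Finsupp.single
      (bpt gam (g * val gam (w.take i)) (w.get i), (w.get i).1) (sgn (w.get i)) := by
  induction w generalizing g with
  | nil => rw [ch]; rfl
  | cons x w ih =>
    have h1 : ∑ i : Fin (x :: w).length, Finsupp.single
        (bpt gam (g * val gam ((x :: w).take i)) ((x :: w).get i), ((x :: w).get i).1)
          (sgn ((x :: w).get i)) =
        Finsupp.single (bpt gam (g * val gam []) x, x.1) (sgn x) +
          ∑ i : Fin w.length, Finsupp.single
            (bpt gam (g * val gam (x :: w.take i)) (w.get i), (w.get i).1) (sgn (w.get i)) :=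
      Fin.sum_univ_succ (n := w.length) _
    rw [h1, ch, ih, val_nil, mul_one]
    congr 1
    refine Finset.sum_congr rfl fun i _ => ?_
    rw [val_cons, mul_assoc]

end SclIrr.N
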