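import Pool.Agent.Lib.MP_ed1a61_al_N.Ch

/-! # Every relation is filled by a chain (MP_ed1a61_al, block N) -/

set_option autoImplicit false

namespace SclIrr.N

open FreeGroup

private theorem fill_aux {G X ι : Type} [Group G] (gam : X → G) (rel : ι → List (X × Bool))
    (hrel : ∀ j, val gam (rel j) = 1) (z : FreeGroup X)
    (hz : z ∈ Subgroup.closure (Group.conjugatesOfSet
      (Set.range fun j => FreeGroup.mk (rel j)))) :
    ∀ w : List (X × Bool), FreeGroup.mk w = z → val gam w = 1 ∧ ∀ g : G,
      ch gam g w ∈ LinearMap.range (Finsupp.linearCombination ℝ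
        (fun x : G × ι => ch gam x.1 (rel x.2))) := by
  induction hz using Subgroup.closure_induction with
  | mem z hz =>
    intro w hw
    rw [Group.mem_conjugatesOfSet_iff] at hz
    obtain ⟨a, ⟨j, hj⟩, hc⟩ := hz
    rw [isConj_iff] at hc
    obtain ⟨y, hy⟩ := hc
    obtain ⟨v, rfl⟩ : ∃ v, FreeGroup.mk v = y := ⟨y.out, Quot.out_eq y⟩
    have h1 : FreeGroup.mk w = FreeGroup.mk (v ++ (rel j ++ invRev v)) := by
      rw [hw, ← hy, ← hj]
      simp [FreeGroup.mul_mk, FreeGroup.inv_mk]
    constructor
    · rw [val_eq_lift, h1, ← val_eq_lift, val_append, val_append, val_invRev, hrel, one_mul,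
        mul_inv_cancel]
    · intro g
      rw [ch_congr gam g h1, ch_append, ch_append, hrel, mul_one, ch_invRev]
      refine ⟨Finsupp.single (g * val gam v, j) 1, ?_⟩
      rw [Finsupp.linearCombination_single, one_smul]
      abel
  | one =>
    intro w hw
    have h1 : FreeGroup.mk w = FreeGroup.mk [] := by rw [hw]; rfl
    constructor
    · rw [val_eq_lift, h1, ← val_eq_lift, val_nil]
    · intro g
      rw [ch_congr gam g h1]
      exact Submodule.zero_mem _
  | mul z1 z2 _ _ ih1 ih2 =>
    intro w hw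
    obtain ⟨w1, rfl⟩ : ∃ v, FreeGroup.mk v = z1 := ⟨z1.out, Quot.out_eq z1⟩
    obtain ⟨w2, rfl⟩ : ∃ v, FreeGroup.mk v = z2 := ⟨z2.out, Quot.out_eq z2⟩
    obtain ⟨a1, b1⟩ := ih1 w1 rfl
    obtain ⟨a2, b2⟩ := ih2 w2 rfl
    have h1 : FreeGroup.mk w = FreeGroup.mk (w1 ++ w2) := by rw [hw, FreeGroup.mul_mk]
    constructor
    · rw [val_eq_lift, h1, ← val_eq_lift, val_append, a1, a2, one_mul]
    · intro g
      rw [ch_congr gam g h1, ch_append]
      exact Submodule.add_mem _ (b1 g) (b2 _)
  | inv z1 _ ih1 =>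
    intro w hw
    obtain ⟨w1, rfl⟩ : ∃ v, FreeGroup.mk v = z1 := ⟨z1.out, Quot.out_eq z1⟩
    obtain ⟨a1, b1⟩ := ih1 w1 rfl
    have h1 : FreeGroup.mk w = FreeGroup.mk (invRev w1) := by rw [hw, FreeGroup.inv_mk]
    constructor
    · rw [val_eq_lift, h1, ← val_eq_lift, val_invRev, a1, inv_one]
    · intro g
      have h2 := ch_invRev gam g w1
      rw [a1, mul_one] at h2
      rw [ch_congr gam g h1, h2]
      exact Submodule.neg_mem _ (b1 g)

/-- Let `P z` be the property of `z` in the free group: for all words `w` with `mk w = z`, `val w = 1`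
and for all `g` there is `c` with `ch g w = ∑ c (ch relator)`. Because of `ch_congr` one word is
enough. `P` holds for the conjugates `y r y⁻¹` of the relators (`ch_append`, `ch_invRev`:
the chain is that of `r` at `g * val y`), for 1, for products and inverses; use
`Subgroup.closure_induction` (`Subgroup.normalClosure` is the closure of the conjugates). -/
theorem exists_fill {G X ι : Type} [Group G] (gam : X → G) (rel : ι → List (X × Bool))
    (hrel : ∀ j, val gam (rel j) = 1) (w : List (X × Bool))
    (hw : FreeGroup.mk w ∈ Subgroup.normalClosure (Set.range fun j => FreeGroup.mk (rel j))) :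
    ∃ c : (G × ι) →₀ ℝ, ch gam 1 w = c.sum fun x a => a • ch gam x.1 (rel x.2) := by
  obtain ⟨c, hc⟩ := (fill_aux gam rel hrel _ hw w rfl).2 1
  exact ⟨c, by rw [← hc, Finsupp.linearCombination_apply]⟩

end SclIrr.N
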