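import Pool.Agent.Lib.MP_ed1a61_al_N.Arc

/-! # An edge is good for at most one arc (MP_ed1a61_al, block N) -/

set_option autoImplicit false

namespace SclIrr.N

open FreeGroup

/-- the windows of length `κ + 1` of the words `u l` and of their inverses are pairwise
different -/
def Win {Y ι : Type} (κ : ℕ) (u : ι → List (Y × Bool)) : Prop :=
  (∀ l l' j j', j + κ < (u l).length → j' + κ < (u l').length →
    ((u l).drop j).take (κ + 1) = ((u l').drop j').take (κ + 1) → l = l' ∧ j = j') ∧
  (∀ l l' j j', j + κ < (u l).length → j' + κ < (u l').length →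
    ((u l).drop j).take (κ + 1) ≠ invRev (((u l').drop j').take (κ + 1)))

private theorem good_app_inj {α : Type} {a b s t : List α} (h : a ++ s = b ++ t)
    (hl : s.length = t.length) : s = t :=
  (List.append_inj' h hl).2

private theorem good_win_len {α : Type} (u : List α) (j κ : ℕ) (h : j + κ < u.length) :
    ((u.drop j).take (κ + 1)).length = κ + 1 := by
  rw [List.length_take, List.length_drop]
  omega

variable {G Y ι : Type} [Group G] [DecidableEq Y] (y : Y → G) (ρ : G → FreeGroup Y)

/-- An edge is good for at most one arc. Proof: the two ends of the edge are the points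
`g * val (take i)` and `g * val (take (i+1))` of the first arc and the corresponding points of the
second arc; the farther end `P` (the longer reduced word) is the same for both. The last `κ + 1`
letters of `(ρ P).toWord` are a window of `u l` or of its inverse and a window of `u l'` or of its
inverse, so by `Win` the direction (`GoodF` or `GoodB`), `l` and `i` agree; then `g` is
`P * (val (take (i+1)))⁻¹` resp. `P * (val (take i))⁻¹`, the same for both. -/
theorem good_inj (κ : ℕ) (u : ι → List (Y × Bool)) (hW : Win κ u) (g g' : G) (l l' : ι)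
    (i : Fin (u l).length) (i' : Fin (u l').length)
    (h : GoodF y ρ κ g (u l) i ∨ GoodB y ρ κ g (u l) i)
    (h' : GoodF y ρ κ g' (u l') i' ∨ GoodB y ρ κ g' (u l') i')
    (h1 : bpt y (g * val y ((u l).take i)) ((u l).get i) =
      bpt y (g' * val y ((u l').take i')) ((u l').get i'))
    (h2 : ((u l).get i).1 = ((u l').get i').1) :
    g = g' ∧ l = l' ∧ (i : ℕ) = i' := by
  have hval : ∀ (k : ι) (j : Fin (u k).length) (a : G),
      a * val y ((u k).take (j + 1)) = a * val y ((u k).take j) * lv y ((u k).get j) := by
    intro k j a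
    have e1 : (u k).take (j + 1) = (u k).take j ++ [(u k).get j] := by
      rw [List.take_succ_eq_append_getElem j.2]
      rfl
    rw [e1, val_append, val_cons, val_nil, mul_one, mul_assoc]
  have hE : ∀ (k : ι) (j : Fin (u k).length) (a : G),
      (bpt y (a * val y ((u k).take j)) ((u k).get j) = a * val y ((u k).take j) ∧
        bpt y (a * val y ((u k).take j)) ((u k).get j) * y ((u k).get j).1 =
          a * val y ((u k).take (j + 1))) ∨
      (bpt y (a * val y ((u k).take j)) ((u k).get j) = a * val y ((u k).take (j + 1)) ∧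
        bpt y (a * val y ((u k).take j)) ((u k).get j) * y ((u k).get j).1 =
          a * val y ((u k).take j)) := by
    intro k j a
    rw [hval k j a]
    unfold bpt lv
    cases ((u k).get j).2
    · right
      simp
    · left
      simp
  have hfar : ∀ (A B P Q P' Q' : G), ((A = P ∧ B = Q) ∨ (A = Q ∧ B = P)) →
      ((A = P' ∧ B = Q') ∨ (A = Q' ∧ B = P')) →
      (ρ P).toWord.length = (ρ Q).toWord.length + 1 →
      (ρ P').toWord.length = (ρ Q').toWord.length + 1 → P = P' := by
    intro A B P Q P' Q' hA hB hP hP'
    rcases hA with ⟨rfl, rfl⟩ | ⟨rfl, rfl⟩ <;> rcases hB with ⟨rfl, rfl⟩ | ⟨rfl, rfl⟩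
    · rfl
    · omega
    · omega
    · rfl
  have e1 := hE l i g
  have e2 := hE l' i' g'
  rw [← h1, ← h2] at e2
  rcases h with ⟨hk, hi, hlen, S, hS⟩ | ⟨hi, hlen, S, hS⟩ <;>
    rcases h' with ⟨hk', hi', hlen', S', hS'⟩ | ⟨hi', hlen', S', hS'⟩
  · have hP := hfar _ _ _ _ _ _ e1.symm e2.symm hlen hlen'
    rw [hP, hS'] at hS
    have hw := good_app_inj hS (by
      rw [good_win_len _ _ _ (by omega), good_win_len _ _ _ (by omega)])
    obtain ⟨hl, hj⟩ := hW.1 l l' (i - κ) (i' - κ) (by omega) (by omega) hw.symm
    subst hl
    have hij : (i : ℕ) = i' := by omega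
    refine ⟨?_, rfl, hij⟩
    rw [hij] at hP
    exact mul_right_cancel hP
  · exfalso
    have hP := hfar _ _ _ _ _ _ e1.symm e2 hlen hlen'
    rw [hP, hS'] at hS
    have hw := good_app_inj hS (by
      rw [invRev_length, good_win_len _ _ _ (by omega), good_win_len _ _ _ (by omega)])
    exact hW.2 l l' (i - κ) i' (by omega) (by omega) hw.symm
  · exfalso
    have hP := hfar _ _ _ _ _ _ e1 e2.symm hlen hlen'
    rw [hP, hS'] at hS
    have hw := good_app_inj hS (by
      rw [invRev_length, good_win_len _ _ _ (by omega), good_win_len _ _ _ (by omega)])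
    exact hW.2 l' l (i' - κ) i (by omega) (by omega) hw
  · have hP := hfar _ _ _ _ _ _ e1 e2 hlen hlen'
    rw [hP, hS'] at hS
    have hw := good_app_inj hS (by
      rw [invRev_length, invRev_length, good_win_len _ _ _ (by omega),
        good_win_len _ _ _ (by omega)])
    obtain ⟨hl, hj⟩ := hW.1 l l' i i' hi hi' (invRev_injective hw).symm
    subst hl
    refine ⟨?_, rfl, hj⟩
    rw [hj] at hP
    exact mul_right_cancel hP

end SclIrr.N
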