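import Pool.Agent.Lib.MP_ed1a61_al_N.LinFill
import Pool.Agent.Lib.MP_ed1a61_al_Y.Main

/-! # The group `G` is hyperbolic (MP_ed1a61_al, block N) -/

set_option autoImplicit false

namespace SclIrr.N

open FreeGroup SclIrr

section bridge

variable {H Z : Type} [Group H] (u : Z → H)

theorem lv_eq (p : Z × Bool) : Y.lv u p = lv u p := by
  obtain ⟨x, b⟩ := p
  cases b <;> simp [Y.lv, lv]

theorem val_eq (w : List (Z × Bool)) : Y.val u w = val u w := by
  unfold Y.val val
  congr 1
  exact List.map_congr_left fun p _ => lv_eq u p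

theorem ch_eq (w : List (Z × Bool)) (g : H) : Y.ch u g w = ch u g w := by
  induction w generalizing g with
  | nil => rfl
  | cons p w ih =>
    rw [Y.ch, ch, ih, lv_eq]
    congr 1
    obtain ⟨x, b⟩ := p
    cases b <;> simp [Y.chl, bpt, sgn]

end bridge

theorem length_rel (j : R) : (rel j).length ≤ 6008 := by
  cases j with
  | tab y =>
    have h : (W.phL y).length ≤ 27 := by fin_cases y <;> decide
    simp [rel, W.pos]
    omega
  | ss => simp [rel]
  | bx =>
    show (List.replicate mexp (X.b, true) ++ invRev (xW.map (Prod.map cf id))).length ≤ 6008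
    rw [List.length_append, List.length_replicate, invRev_length, List.length_map]
    have h1 : mexp = 6000 := rfl
    have h2 : xW.length = 8 := rfl
    omega

theorem closure_gam {S : Finset G} (hS : ∀ g, g ∈ S ↔ ∃ x, gam x = g) :
    Subgroup.closure (S : Set G) = ⊤ := by
  have h : (S : Set G) = Set.range (gam : X → G) := by
    ext g
    rw [Finset.mem_coe, hS]
    rfl
  rw [h]
  exact PresentedGroup.closure_range_of _

/-- The group `G` is hyperbolic: the four point condition for the word metric. -/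
theorem four_point (h2 : Function.Injective (FreeGroup.lift (gam ∘ ab)))
    (h4 : Function.Injective (FreeGroup.lift (gam ∘ cf)))
    {S : Finset G} (hS : ∀ g, g ∈ S ↔ ∃ x, gam x = g) {d : G → G → ℕ}
    (hd : ∀ x y : G, d x y = sInf {n : ℕ | ∃ l : List G, l.length = n ∧
      (∀ s ∈ l, s ∈ S ∨ s⁻¹ ∈ S) ∧ l.prod = x⁻¹ * y}) :
    ∃ δ : ℕ, ∀ x y z w : G,
      d x z + d y w ≤ max (d x y + d z w) (d x w + d y z) + 2 * δ := by
  refine Y.fourPoint (gam := gam) (rel := rel) (C := 1502) (r := 6008) (by norm_num)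
    (fun j => ⟨by rw [val_eq]; exact val_rel j, length_rel j⟩) (fun w hw => ?_) hS
    (closure_gam hS) hd
  rw [val_eq] at hw
  obtain ⟨c, hc1, hc2⟩ := linFill h2 h4 w hw
  refine ⟨c, hc2, ?_⟩
  rw [ch_eq, hc1]
  refine Finset.sum_congr rfl fun x _ => ?_
  rw [ch_eq]

/-- A group `H` with elements `u x` which satisfy the relations of `G`: the homomorphism. -/
theorem exists_hom {H : Type} [Group H] (u : X → H) (hu : ∀ j, val u (rel j) = 1) :
    ∃ Φ : G →* H, ∀ x, Φ (gam x) = u x := by
  have h : ∀ r ∈ Set.range (fun j => FreeGroup.mk (rel j)), FreeGroup.lift u r = 1 := by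
    rintro _ ⟨j, rfl⟩
    exact (val_eq_lift u (rel j)).symm.trans (hu j)
  exact ⟨PresentedGroup.toGroup h, fun x => PresentedGroup.toGroup.of h⟩

/-- The subgroups generated by `a, b` and by `c, d, e, f` are free if this is so in `H`. -/
theorem lift_injective {H : Type} [Group H] (u : X → H) (hu : ∀ j, val u (rel j) = 1)
    {Z : Type} (em : Z → X) (h : Function.Injective (FreeGroup.lift (u ∘ em))) :
    Function.Injective (FreeGroup.lift (gam ∘ em)) := by
  obtain ⟨Φ, hΦ⟩ := exists_hom u hu
  have h1 : Φ.comp (FreeGroup.lift (gam ∘ em)) = FreeGroup.lift (u ∘ em) := by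
    ext z
    simp [hΦ]
  intro x y hxy
  apply h
  rw [← h1]
  simp only [MonoidHom.comp_apply]
  rw [hxy]

end SclIrr.N
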