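import Pool.Agent.Lib.MP_ed1a61_al_N.Bd
import Pool.Agent.Lib.MP_ed1a61_al_N.Fill

/-! # Linear fillings in the group `G` (MP_ed1a61_al, block N) -/

set_option autoImplicit false

namespace SclIrr.N

open FreeGroup SclIrr

/-- LINEAR FILLING (section 3.3 of the text): `exists_fill` with `val_rel`, `mem_closure`; replace
the slice over `R.ss` by `d` of `bd_ss` (`exists_of_slices`, `sum_eq_sum_slice`); the norm is
`∑_y nm c_y + nm c_bx + nm d ≤ (6000/4 + 1) n + n/4 + n/2` (`nm_eq_sum_slice`, `bd_bx`,
`bd_tab`). -/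
theorem linFill (h2 : Function.Injective (FreeGroup.lift (gam ∘ ab)))
    (h4 : Function.Injective (FreeGroup.lift (gam ∘ cf))) (w : List (X × Bool))
    (hw : val gam w = 1) :
    ∃ c : (G × R) →₀ ℝ, (ch gam 1 w = c.sum fun x a => a • ch gam x.1 (rel x.2)) ∧
      nm c ≤ 1502 * w.length := by
  obtain ⟨c, hc⟩ := exists_fill gam rel val_rel w (mem_closure hw)
  obtain ⟨d, hd1, hd2⟩ := bd_ss c w hc
  have hbx := bd_bx c w hc h4
  have htab := bd_tab c w hc h2
  obtain ⟨c', hc'⟩ := exists_of_slices (Function.update (fun b => slice b c) R.ss d)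
  have e1 : slice R.ss c' = d := by rw [hc', Function.update_self]
  have e2 : ∀ b, b ≠ R.ss → slice b c' = slice b c := fun b hb => by
    rw [hc', Function.update_of_ne hb]
  refine ⟨c', ?_, ?_⟩
  · rw [hc, sum_eq_sum_slice c fun x => ch gam x.1 (rel x.2),
      sum_eq_sum_slice c' fun x => ch gam x.1 (rel x.2)]
    refine Finset.sum_congr rfl fun b _ => ?_
    by_cases hb : b = R.ss
    · subst hb
      rw [e1]
      exact hd2.symm
    · rw [e2 b hb]
  · have hu : (Finset.univ : Finset R) = {R.tab 0, R.tab 1, R.ss, R.bx} := by decide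
    have hs : nm c' = nm (slice (R.tab 0) c) + (nm (slice (R.tab 1) c) +
        (nm d + nm (slice R.bx c))) := by
      rw [nm_eq_sum_slice c', hu, Finset.sum_insert (by decide), Finset.sum_insert (by decide),
        Finset.sum_insert (by decide), Finset.sum_singleton, e1, e2 _ (by decide),
        e2 _ (by decide), e2 _ (by decide)]
    rw [Fin.sum_univ_two] at htab
    have hm : (mexp : ℝ) = 6000 := by
      unfold mexp
      norm_num
    rw [hm] at htab
    rw [hs]
    have hn : (0 : ℝ) ≤ w.length := Nat.cast_nonneg _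
    linarith

end SclIrr.N
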