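import Pool.Agent.Lib.MP_ed1a61_al_N.Slice
import Pool.Agent.Lib.MP_ed1a61_al_G.Defs

/-! # The chains of the relators (MP_ed1a61_al, block N) -/

set_option autoImplicit false

namespace SclIrr.N

open FreeGroup SclIrr

private theorem rel_tab_eq (y : Fin 2) : rel (R.tab y) =
    [(X.t, true), (ab y, true), (X.t, false)] ++
      FreeGroup.invRev ((W.pos (W.phL y)).map (Prod.map ab id)) := rfl

private theorem rel_ss_eq : rel R.ss = [(X.s, true), (X.s, true)] := rfl

private theorem rel_bx_eq : rel R.bx = List.replicate mexp (X.b, true) ++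
    FreeGroup.invRev (xW.map (Prod.map cf id)) := rfl

private theorem lift_gam (z : FreeGroup X) : FreeGroup.lift gam z =
    PresentedGroup.mk (Set.range fun j => FreeGroup.mk (rel j)) z := by
  have h : FreeGroup.lift gam =
      PresentedGroup.mk (Set.range fun j => FreeGroup.mk (rel j)) :=
    FreeGroup.ext_hom _ _ fun x => by
      rw [FreeGroup.lift_apply_of]
      rfl
  rw [h]

private theorem val_rep (x : X) (n : ℕ) : val gam (List.replicate n (x, true)) = gam x ^ n := by
  unfold val
  rw [List.map_replicate, List.prod_replicate]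
  rfl

theorem val_rel (j : R) : val gam (rel j) = 1 := by
  rw [val_eq_lift, lift_gam, PresentedGroup.mk_eq_one_iff]
  exact Subgroup.subset_normalClosure ⟨j, rfl⟩

/-- words with value one lie in the normal closure of the relators
(`PresentedGroup`, `QuotientGroup.eq_one_iff`) -/
theorem mem_closure {w : List (X × Bool)} (hw : val gam w = 1) :
    FreeGroup.mk w ∈ Subgroup.normalClosure (Set.range fun j => FreeGroup.mk (rel j)) := by
  rwa [val_eq_lift, lift_gam, PresentedGroup.mk_eq_one_iff] at hw

private theorem val_three (y : Fin 2) :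
    val gam [(X.t, true), (ab y, true), (X.t, false)] =
      gam X.t * gam (ab y) * (gam X.t)⁻¹ := by
  simp [val_cons, val_nil, lv, mul_assoc]

theorem rel_t (y : Fin 2) : gam X.t * gam (ab y) * (gam X.t)⁻¹ =
    val gam ((W.pos (W.phL y)).map (Prod.map ab id)) := by
  have h := val_rel (R.tab y)
  rw [rel_tab_eq] at h
  rw [val_append, val_invRev, val_three] at h
  exact mul_inv_eq_one.1 h

theorem rel_s : gam X.s * gam X.s = 1 := by
  have h := val_rel R.ss
  rw [rel_ss_eq] at h
  rw [val_cons, val_cons, val_nil, mul_one] at h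
  exact h

theorem rel_b : gam X.b ^ mexp = val gam (xW.map (Prod.map cf id)) := by
  have h := val_rel R.bx
  rw [rel_bx_eq] at h
  rw [val_append, val_invRev, val_rep] at h
  exact mul_inv_eq_one.1 h

theorem ch_rel_tab (g : G) (y : Fin 2) : ch gam g (rel (R.tab y)) =
    Finsupp.single (g, X.t) 1 + Finsupp.single (g * gam X.t, ab y) 1 -
      Finsupp.single (g * gam X.t * gam (ab y) * (gam X.t)⁻¹, X.t) 1 -
      ch gam g ((W.pos (W.phL y)).map (Prod.map ab id)) := by
  rw [rel_tab_eq]
  rw [ch_append, val_three, rel_t, ch_invRev, ← sub_eq_add_neg]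
  congr 1
  have h : Finsupp.single (g * gam X.t * gam (ab y) * (gam X.t)⁻¹, X.t) (-1 : ℝ) =
      -Finsupp.single (g * gam X.t * gam (ab y) * (gam X.t)⁻¹, X.t) 1 :=
    Finsupp.single_neg _ _
  simp only [ch, bpt, sgn, lv, if_true, Bool.false_eq_true, if_false, add_zero, h]
  abel

theorem ch_rel_ss (g : G) : ch gam g (rel R.ss) =
    Finsupp.single (g, X.s) 1 + Finsupp.single (g * gam X.s, X.s) 1 := by
  rw [rel_ss_eq]
  simp only [ch, bpt, sgn, lv, if_true, add_zero]

theorem ch_rel_bx (g : G) : ch gam g (rel R.bx) =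
    ch gam g (List.replicate mexp (X.b, true)) - ch gam g (xW.map (Prod.map cf id)) := by
  rw [rel_bx_eq]
  rw [ch_append, val_rep, rel_b, ch_invRev, ← sub_eq_add_neg]

end SclIrr.N
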