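import Pool.Agent.Lib.MP_ed1a61_al_N.Rel

/-! # Restrictions of the chains of the relators (MP_ed1a61_al, block N) -/

set_option autoImplicit false

namespace SclIrr.N

open FreeGroup SclIrr

private theorem t_cf : X.t ∉ Set.range cf := by
  rintro ⟨i, hi⟩
  revert i
  decide

private theorem s_cf : X.s ∉ Set.range cf := by
  rintro ⟨i, hi⟩
  revert i
  decide

private theorem b_cf : X.b ∉ Set.range cf := by
  rintro ⟨i, hi⟩
  revert i
  decide

private theorem ab_cf (y : Fin 2) : ab y ∉ Set.range cf := by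
  rintro ⟨i, hi⟩
  revert y i
  decide

private theorem t_ab : X.t ∉ Set.range ab := by
  rintro ⟨i, hi⟩
  revert i
  decide

private theorem s_ab : X.s ∉ Set.range ab := by
  rintro ⟨i, hi⟩
  revert i
  decide

private theorem mem_map_ab {w : List (Fin 2 × Bool)} {x : X × Bool}
    (hx : x ∈ w.map (Prod.map ab id)) : ∃ y, x.1 = ab y := by
  obtain ⟨p, -, rfl⟩ := List.mem_map.1 hx
  exact ⟨p.1, rfl⟩

private theorem mem_map_cf {w : List (Fin 4 × Bool)} {x : X × Bool}
    (hx : x ∈ w.map (Prod.map cf id)) : ∃ y, x.1 = cf y := by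
  obtain ⟨p, -, rfl⟩ := List.mem_map.1 hx
  exact ⟨p.1, rfl⟩

private theorem slice_single_ne {z z' : X} (h : z' ≠ z) (g : G) (r : ℝ) :
    slice z (Finsupp.single (g, z') r) = 0 := by
  classical
  ext a
  rw [slice_apply, Finsupp.single_apply, if_neg, Finsupp.zero_apply]
  intro h1
  exact h (Prod.mk.inj h1).2

private theorem slice_single (z : X) (g : G) (r : ℝ) :
    slice z (Finsupp.single (g, z) r) = Finsupp.single g r := by
  classical
  ext a
  rw [slice_apply, Finsupp.single_apply, Finsupp.single_apply]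
  by_cases h : g = a
  · rw [if_pos h, if_pos (by rw [h])]
  · rw [if_neg h, if_neg fun h1 => h (Prod.mk.inj h1).1]

private theorem slice_ch {z : X} (w : List (X × Bool)) (hw : ∀ x ∈ w, x.1 ≠ z) :
    ∀ g : G, slice z (ch gam g w) = 0 := by
  induction w with
  | nil =>
    intro g
    exact map_zero _
  | cons x w ih =>
    intro g
    have h1 : ch gam g (x :: w) =
        Finsupp.single (bpt gam g x, x.1) (sgn x) + ch gam (g * lv gam x) w := rfl
    rw [h1, map_add, slice_single_ne (hw x List.mem_cons_self), zero_add]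
    exact ih (fun y hy => hw y (List.mem_cons_of_mem _ hy)) _

theorem ab_inj : Function.Injective ab := by
  intro i j
  revert i j
  decide

theorem cf_inj : Function.Injective cf := by
  intro i j
  revert i j
  decide

theorem restr_cf_tab (g : G) (y : Fin 2) : restr cf cf_inj (ch gam g (rel (R.tab y))) = 0 := by
  rw [ch_rel_tab, map_sub, map_sub, map_add, restr_single_of_notMem _ _ _ _ t_cf,
    restr_single_of_notMem _ _ _ _ (ab_cf y), restr_single_of_notMem _ _ _ _ t_cf,
    restr_ch_of_notMem _ _ _ _ _ fun x hx => ?_]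
  · simp
  · obtain ⟨z, hz⟩ := mem_map_ab hx
    rw [hz]
    exact ab_cf z

theorem restr_cf_ss (g : G) : restr cf cf_inj (ch gam g (rel R.ss)) = 0 := by
  rw [ch_rel_ss, map_add, restr_single_of_notMem _ _ _ _ s_cf,
    restr_single_of_notMem _ _ _ _ s_cf, add_zero]

theorem restr_cf_bx (g : G) :
    restr cf cf_inj (ch gam g (rel R.bx)) = -ch (gam ∘ cf) g xW := by
  rw [ch_rel_bx, map_sub, restr_ch_map, restr_ch_of_notMem _ _ _ _ _ fun x hx => ?_, zero_sub]
  rw [List.eq_of_mem_replicate hx]
  exact b_cf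

theorem restr_ab_tab (g : G) (y : Fin 2) : restr ab ab_inj (ch gam g (rel (R.tab y))) =
    Finsupp.single (g * gam X.t, y) 1 - ch (gam ∘ ab) g (W.pos (W.phL y)) := by
  rw [ch_rel_tab, map_sub, map_sub, map_add, restr_single_of_notMem _ _ _ _ t_ab,
    restr_single, restr_single_of_notMem _ _ _ _ t_ab, restr_ch_map, zero_add, sub_zero]

theorem restr_ab_ss (g : G) : restr ab ab_inj (ch gam g (rel R.ss)) = 0 := by
  rw [ch_rel_ss, map_add, restr_single_of_notMem _ _ _ _ s_ab,
    restr_single_of_notMem _ _ _ _ s_ab, add_zero]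

theorem restr_ab_bx (g : G) : restr ab ab_inj (ch gam g (rel R.bx)) =
    ch (gam ∘ ab) g (List.replicate mexp ((1 : Fin 2), true)) := by
  have h1 : List.replicate mexp (X.b, true) =
      (List.replicate mexp ((1 : Fin 2), true)).map (Prod.map ab id) := by
    rw [List.map_replicate]
    rfl
  rw [ch_rel_bx, map_sub, h1, restr_ch_map, restr_ch_of_notMem _ _ _ _ _ fun x hx => ?_, sub_zero]
  obtain ⟨z, hz⟩ := mem_map_cf hx
  rw [hz]
  rintro ⟨i, hi⟩
  exact ab_cf i ⟨z, hi.symm⟩

theorem slice_s_tab (g : G) (y : Fin 2) : slice X.s (ch gam g (rel (R.tab y))) = 0 := by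
  have h1 : ∀ z, ab z ≠ X.s := by decide
  rw [ch_rel_tab, map_sub, map_sub, map_add, slice_single_ne (by decide),
    slice_single_ne (h1 y), slice_single_ne (by decide), slice_ch _ fun x hx => ?_]
  · simp
  · obtain ⟨z, hz⟩ := mem_map_ab hx
    rw [hz]
    exact h1 z

theorem slice_s_ss (g : G) : slice X.s (ch gam g (rel R.ss)) =
    Finsupp.single g 1 + Finsupp.single (g * gam X.s) 1 := by
  rw [ch_rel_ss, map_add, slice_single, slice_single]

theorem slice_s_bx (g : G) : slice X.s (ch gam g (rel R.bx)) = 0 := by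
  have h1 : ∀ z, cf z ≠ X.s := by decide
  rw [ch_rel_bx, map_sub, slice_ch _ fun x hx => ?_, slice_ch _ fun x hx => ?_, sub_zero]
  · obtain ⟨z, hz⟩ := mem_map_cf hx
    rw [hz]
    exact h1 z
  · rw [List.eq_of_mem_replicate hx]
    decide

end SclIrr.N
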