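import Pool.Agent.Lib.MP_ed1a61_al_N.Ch

/-! # Slices and restrictions of chains (MP_ed1a61_al, block N) -/

set_option autoImplicit false

namespace SclIrr.N

open FreeGroup

/-- the part of `c` over `b` -/
noncomputable def slice {A B : Type} (b : B) : ((A × B) →₀ ℝ) →ₗ[ℝ] (A →₀ ℝ) :=
  Finsupp.lcomapDomain (fun a => (a, b)) (fun _ _ h => (Prod.mk.inj h).1)

theorem slice_apply {A B : Type} (b : B) (c : (A × B) →₀ ℝ) (a : A) :
    slice b c a = c (a, b) := by
  rfl

private theorem slice_nm_comap {A E : Type} (i : A → E) (hi : Function.Injective i) (c : E →₀ ℝ)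
    (d : A →₀ ℝ) (hd : ∀ a, d a = c (i a)) : nm d ≤ nm c := by
  classical
  unfold nm Finsupp.sum
  have h1 : ∑ a ∈ d.support, |d a| = ∑ e ∈ d.support.image i, |c e| := by
    rw [Finset.sum_image (fun x _ y _ h => hi h)]
    exact Finset.sum_congr rfl (fun a _ => by rw [hd])
  rw [h1]
  refine Finset.sum_le_sum_of_subset_of_nonneg ?_ (fun _ _ _ => abs_nonneg _)
  intro e he
  obtain ⟨a, ha, rfl⟩ := Finset.mem_image.1 he
  rw [Finsupp.mem_support_iff] at ha ⊢
  rwa [← hd]

private theorem slice_sum {A B N : Type} [Fintype B] [AddCommMonoid N] (c : (A × B) →₀ ℝ)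
    (F : A × B → ℝ → N) (hF : ∀ x, F x 0 = 0) :
    c.sum F = ∑ b, (slice b c).sum fun a r => F (a, b) r := by
  classical
  have h1 : c.support ⊆ (c.support.image Prod.fst) ×ˢ (Finset.univ : Finset B) := by
    intro x hx
    rw [Finset.mem_product]
    exact ⟨Finset.mem_image_of_mem _ hx, Finset.mem_univ _⟩
  rw [Finsupp.sum_of_support_subset c h1 F (fun x _ => hF x), Finset.sum_product_right]
  refine Finset.sum_congr rfl (fun b _ => ?_)
  have h2 : (slice b c).support ⊆ c.support.image Prod.fst := by
    intro a ha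
    rw [Finsupp.mem_support_iff] at ha
    exact Finset.mem_image.2 ⟨(a, b), Finsupp.mem_support_iff.2 ha, rfl⟩
  rw [Finsupp.sum_of_support_subset (slice b c) h2 _ (fun x _ => hF (x, b))]
  rfl

theorem nm_slice_le {A B : Type} (b : B) (c : (A × B) →₀ ℝ) : nm (slice b c) ≤ nm c := by
  exact slice_nm_comap (fun a => (a, b)) (fun _ _ h => (Prod.mk.inj h).1) c _ (fun _ => rfl)

theorem nm_eq_sum_slice {A B : Type} [Fintype B] (c : (A × B) →₀ ℝ) :
    nm c = ∑ b, nm (slice b c) := by
  exact slice_sum c (fun _ a => |a|) (fun _ => abs_zero)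

theorem sum_eq_sum_slice {A B M : Type} [Fintype B] [AddCommGroup M] [Module ℝ M]
    (c : (A × B) →₀ ℝ) (f : A × B → M) :
    (c.sum fun x a => a • f x) = ∑ b, (slice b c).sum fun h a => a • f (h, b) := by
  exact slice_sum c (fun x a => a • f x) (fun _ => zero_smul ℝ _)

theorem exists_of_slices {A B : Type} [Fintype B] (d : B → (A →₀ ℝ)) :
    ∃ c : (A × B) →₀ ℝ, ∀ b, slice b c = d b := by
  classical
  refine ⟨Finsupp.onFinset
    (Finset.univ.biUnion fun b => (d b).support.image (fun a => (a, b)))
    (fun x => d x.2 x.1) (fun x hx => ?_), fun b => ?_⟩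
  · rw [Finset.mem_biUnion]
    exact ⟨x.2, Finset.mem_univ _, Finset.mem_image.2 ⟨x.1, Finsupp.mem_support_iff.2 hx, rfl⟩⟩
  · ext a
    rw [slice_apply, Finsupp.onFinset_apply]

/-- the part of a chain on the letters in the image of `em` -/
noncomputable def restr {G X Y : Type} (em : Y → X) (hem : Function.Injective em) :
    ((G × X) →₀ ℝ) →ₗ[ℝ] ((G × Y) →₀ ℝ) :=
  Finsupp.lcomapDomain (Prod.map id em) (Function.Injective.prodMap Function.injective_id hem)

section

variable {G X Y : Type} (em : Y → X) (hem : Function.Injective em)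

theorem restr_apply (z : (G × X) →₀ ℝ) (g : G) (y : Y) :
    restr em hem z (g, y) = z (g, em y) := by
  rfl

theorem nm_restr_le (z : (G × X) →₀ ℝ) : nm (restr em hem z) ≤ nm z := by
  exact slice_nm_comap _ (Function.Injective.prodMap Function.injective_id hem) z _ (fun _ => rfl)

theorem restr_single (g : G) (y : Y) (a : ℝ) :
    restr em hem (Finsupp.single (g, em y) a) = Finsupp.single (g, y) a := by
  classical
  ext ⟨g', y'⟩
  rw [restr_apply, Finsupp.single_apply, Finsupp.single_apply]
  have h : ((g, em y) = (g', em y')) ↔ ((g, y) = (g', y')) := by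
    rw [Prod.mk.injEq, Prod.mk.injEq, hem.eq_iff]
  simp only [h]

theorem restr_single_of_notMem (g : G) (x : X) (hx : x ∉ Set.range em) (a : ℝ) :
    restr em hem (Finsupp.single (g, x) a) = 0 := by
  classical
  ext ⟨g', y'⟩
  rw [restr_apply, Finsupp.single_apply, if_neg, Finsupp.zero_apply]
  intro h
  exact hx ⟨y', ((Prod.mk.inj h).2).symm⟩

theorem restr_ch_map [Group G] (gam : X → G) (g : G) (w : List (Y × Bool)) :
    restr em hem (ch gam g (w.map (Prod.map em id))) = ch (gam ∘ em) g w := by
  induction w generalizing g with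
  | nil => rw [List.map_nil, ch, ch, map_zero]
  | cons y w ih =>
    rw [List.map_cons, ch, ch, map_add]
    have h1 : (Prod.map em id y).1 = em y.1 := rfl
    have h2 : bpt gam g (Prod.map em id y) = bpt (gam ∘ em) g y := rfl
    have h3 : sgn (Prod.map em id y) = sgn y := rfl
    have h4 : lv gam (Prod.map em id y) = lv (gam ∘ em) y := rfl
    rw [h1, h2, h3, h4, restr_single, ih]

theorem restr_ch_of_notMem [Group G] (gam : X → G) (g : G) (w : List (X × Bool))
    (hw : ∀ x ∈ w, x.1 ∉ Set.range em) : restr em hem (ch gam g w) = 0 := by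
  induction w generalizing g with
  | nil => rw [ch, map_zero]
  | cons x w ih =>
    rw [ch, map_add, restr_single_of_notMem em hem _ _ (hw x List.mem_cons_self), zero_add]
    exact ih _ (fun y hy => hw y (List.mem_cons_of_mem _ hy))

theorem restr_comb {A : Type} (c : A →₀ ℝ) (f : A → (G × X) →₀ ℝ) :
    restr em hem (c.sum fun x a => a • f x) = c.sum fun x a => a • restr em hem (f x) := by
  rw [map_finsuppSum]
  simp only [map_smul]

end

end SclIrr.N
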